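import Mathlib

/-!
# Binary partitions are a subsequence of a nested recurrence

`bin n` is the number of partitions of `n` into powers of two. The recurrence

  `w(n) = w(n - w(n - 1)) + w(n - 4)`,  `w(m) = 2` for `m < 0`,

(`p = q = 1`, `u₁ = 1`, `v₁ = 4`, `c = 2`) has the solution `w(2 n + 1) = bin n`, `w(2 n) = 2 ⌈n / 2⌉` (`n ≥ 1`),
`w(0) = 2`, for `n ≥ 40`. At an odd index `2 n + 1` the nested term is
`w(2 n + 1 - 2 ⌈n/2⌉) = w(2 ⌊n/2⌋ + 1) = bin ⌊n/2⌋`, and `bin n = bin (n - 2) + bin ⌊n/2⌋`. At an even index `2 n` the nested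
index `2 n - bin (n - 1)` is negative, so that the nested term is the constant `2`.
-/

set_option autoImplicit false

namespace Pool.Agent.Results.MP_4e7634_nt.BinIsNested

open scoped Classical in
/-- `bin n`: the number of partitions of `n` all of whose parts are powers of `2`. -/
noncomputable def bin (n : ℕ) : ℕ :=
  ((Finset.univ : Finset n.Partition).filter fun p => ∀ i ∈ p.parts, ∃ k : ℕ, i = 2 ^ k).card

/-- `w` extended to the integers by the value `c` at all negative integers. -/
def ext (c : ℕ) (w : ℕ → ℕ) (m : ℤ) : ℕ := if m < 0 then c else w m.toNat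

/-- `w` is a solution of the recurrence `w(n) = ∑_i w(n - w(n - u_i)) + ∑_j w(n - v_j)` (with `u` the list of the `u_i`
and `v` the list of the `v_j`): a sequence of positive integers which satisfies it for all `n ≥ k`, where `w(m)` is
read as `c` for `m < 0`. -/
def IsSolution (u v : List ℕ) (c k : ℕ) (w : ℕ → ℕ) : Prop :=
  (∀ n, 0 < w n) ∧ ∀ n : ℕ, k ≤ n →
    w n = (u.map fun i : ℕ => ext c w ((n : ℤ) - (ext c w ((n : ℤ) - (i : ℤ)) : ℤ))).sum +
      (v.map fun j : ℕ => ext c w ((n : ℤ) - (j : ℤ))).sum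

/-! ### The recurrence of `bin` -/

open scoped Classical in
/-- binary partitions with a part `1` -/
noncomputable def B1 (n : ℕ) : Finset n.Partition :=
  (Finset.univ : Finset n.Partition).filter fun p => (∀ i ∈ p.parts, ∃ k : ℕ, i = 2 ^ k) ∧ 1 ∈ p.parts

open scoped Classical in
/-- binary partitions without a part `1` -/
noncomputable def B0 (n : ℕ) : Finset n.Partition :=
  (Finset.univ : Finset n.Partition).filter fun p => (∀ i ∈ p.parts, ∃ k : ℕ, i = 2 ^ k) ∧ 1 ∉ p.parts

theorem bin_eq (n : ℕ) : bin n = (B1 n).card + (B0 n).card := by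
  classical
  unfold bin B1 B0
  rw [← Finset.card_filter_add_card_filter_not (s := (Finset.univ : Finset n.Partition).filter
    fun p => ∀ i ∈ p.parts, ∃ k : ℕ, i = 2 ^ k) (fun p => 1 ∈ p.parts)]
  simp only [Finset.filter_filter]

theorem card_B1 (n : ℕ) : (B1 (n + 1)).card = bin n := by
  classical
  unfold B1 bin
  symm
  refine Finset.card_bij (fun p _ => ⟨1 ::ₘ p.parts, ?_, ?_⟩) ?_ ?_ ?_
  · intro i hi
    rcases Multiset.mem_cons.1 hi with h | h
    · omega
    · exact p.parts_pos h
  · rw [Multiset.sum_cons, p.parts_sum]; omega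
  · intro p hp
    simp only [Finset.mem_filter, Finset.mem_univ, true_and] at hp ⊢
    refine ⟨?_, Multiset.mem_cons_self _ _⟩
    intro i hi
    rcases Multiset.mem_cons.1 hi with h | h
    · exact ⟨0, by simpa using h⟩
    · exact hp i h
  · intro p _ q _ h
    have := congrArg Nat.Partition.parts h
    simp only [Multiset.cons_inj_right] at this
    exact Nat.Partition.ext this
  · intro q hq
    simp only [Finset.mem_filter, Finset.mem_univ, true_and] at hq
    obtain ⟨h1, h2⟩ := hq
    refine ⟨⟨q.parts.erase 1, ?_, ?_⟩, ?_, ?_⟩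
    · intro i hi
      exact q.parts_pos (Multiset.mem_of_mem_erase hi)
    · have := Multiset.sum_erase h2
      rw [q.parts_sum] at this
      omega
    · simp only [Finset.mem_filter, Finset.mem_univ, true_and]
      intro i hi
      exact h1 i (Multiset.mem_of_mem_erase hi)
    · apply Nat.Partition.ext
      exact Multiset.cons_erase h2

theorem card_B0 (n : ℕ) : (B0 (2 * n)).card = bin n := by
  classical
  unfold B0 bin
  symm
  refine Finset.card_bij (fun p _ => ⟨p.parts.map (fun i => 2 * i), ?_, ?_⟩) ?_ ?_ ?_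
  · intro i hi
    obtain ⟨j, hj, rfl⟩ := Multiset.mem_map.1 hi
    have := p.parts_pos hj
    omega
  · rw [Multiset.sum_map_mul_left, Multiset.map_id', p.parts_sum]
  · intro p hp
    simp only [Finset.mem_filter, Finset.mem_univ, true_and] at hp ⊢
    refine ⟨?_, ?_⟩
    · intro i hi
      obtain ⟨j, hj, rfl⟩ := Multiset.mem_map.1 hi
      obtain ⟨k, rfl⟩ := hp j hj
      exact ⟨k + 1, by rw [pow_succ]; ring⟩
    · intro h
      obtain ⟨j, hj, h1⟩ := Multiset.mem_map.1 h
      omega
  · intro p _ q _ h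
    have := congrArg Nat.Partition.parts h
    simp only at this
    apply Nat.Partition.ext
    exact Multiset.map_injective (fun a b hab => by simpa using hab) this
  · intro q hq
    simp only [Finset.mem_filter, Finset.mem_univ, true_and] at hq
    obtain ⟨h1, h2⟩ := hq
    have h3 : ∀ i ∈ q.parts, 2 * (i / 2) = i ∧ ∃ k : ℕ, i / 2 = 2 ^ k := by
      intro i hi
      obtain ⟨k, rfl⟩ := h1 i hi
      rcases k with _ | k
      · exact absurd hi (by simpa using h2)
      · refine ⟨by rw [pow_succ]; omega, k, by rw [pow_succ]; omega⟩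
    have h4 : (q.parts.map (fun i => i / 2)).map (fun i => 2 * i) = q.parts := by
      rw [Multiset.map_map]
      conv_rhs => rw [← Multiset.map_id q.parts]
      apply Multiset.map_congr rfl
      intro i hi
      exact (h3 i hi).1
    refine ⟨⟨q.parts.map (fun i => i / 2), ?_, ?_⟩, ?_, ?_⟩
    · intro i hi
      obtain ⟨j, hj, rfl⟩ := Multiset.mem_map.1 hi
      obtain ⟨_, k, hk⟩ := h3 j hj
      rw [hk]; positivity
    · have h5 := congrArg Multiset.sum h4
      rw [Multiset.sum_map_mul_left, Multiset.map_id', q.parts_sum] at h5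
      omega
    · simp only [Finset.mem_filter, Finset.mem_univ, true_and]
      intro i hi
      obtain ⟨j, hj, rfl⟩ := Multiset.mem_map.1 hi
      exact (h3 j hj).2
    · apply Nat.Partition.ext
      exact h4

theorem card_B0_odd (n : ℕ) : (B0 (2 * n + 1)).card = 0 := by
  classical
  rw [Finset.card_eq_zero]
  unfold B0
  rw [Finset.filter_eq_empty_iff]
  rintro p - ⟨h1, h2⟩
  have h3 : 2 ∣ p.parts.sum := by
    apply Multiset.dvd_sum
    intro i hi
    obtain ⟨k, rfl⟩ := h1 i hi
    rcases k with _ | k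
    · exact absurd hi (by simpa using h2)
    · exact ⟨2 ^ k, by rw [pow_succ]; ring⟩
  rw [p.parts_sum] at h3
  omega

theorem bin_zero : bin 0 = 1 := by
  classical
  unfold bin
  rw [Finset.filter_true_of_mem]
  · rw [Finset.card_univ]
    exact Fintype.card_unique
  · intro p _ i hi
    have h := p.parts_sum
    have h1 := Multiset.le_sum_of_mem hi
    have h2 := p.parts_pos hi
    omega

theorem bin_odd (n : ℕ) : bin (2 * n + 1) = bin (2 * n) := by
  rw [bin_eq, card_B1, card_B0_odd, add_zero]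

theorem bin_even (n : ℕ) : bin (2 * n + 2) = bin (2 * n) + bin (n + 1) := by
  have h := bin_eq (2 * n + 2)
  rw [card_B1 (2 * n + 1), show 2 * n + 2 = 2 * (n + 1) by ring, card_B0, bin_odd] at h
  rw [show 2 * n + 2 = 2 * (n + 1) by ring]
  exact h

theorem bin_rec (n : ℕ) : bin (n + 2) = bin n + bin ((n + 2) / 2) := by
  rcases Nat.even_or_odd' n with ⟨m, rfl | rfl⟩
  · rw [bin_even]
    congr 2
    omega
  · rw [show 2 * m + 1 + 2 = 2 * (m + 1) + 1 by ring, bin_odd, show 2 * (m + 1) = 2 * m + 2 by ring, bin_even, bin_odd]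
    congr 2
    omega

theorem bin_pos (n : ℕ) : 0 < bin n := by
  induction n using Nat.strong_induction_on with
  | _ n ih =>
    rcases n with _ | _ | n
    · rw [bin_zero]; omega
    · have := bin_odd 0
      rw [bin_zero] at this
      simp only [mul_zero, zero_add] at this
      rw [zero_add, this]
      omega
    · rw [bin_rec]
      have := ih n (by omega)
      omega

theorem bin_one : bin 1 = 1 := by
  have := bin_odd 0
  rw [bin_zero] at this
  simpa using this

/-- `bin n` for `n ≤ 20` -/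
theorem bin_small : bin 2 = 2 ∧ bin 3 = 2 ∧ bin 4 = 4 ∧ bin 5 = 4 ∧ bin 6 = 6 ∧ bin 7 = 6 ∧ bin 8 = 10 ∧ bin 9 = 10 ∧
    bin 10 = 14 ∧ bin 11 = 14 ∧ bin 12 = 20 ∧ bin 13 = 20 ∧ bin 14 = 26 ∧ bin 15 = 26 ∧ bin 16 = 36 ∧ bin 17 = 36 ∧
    bin 18 = 46 ∧ bin 19 = 46 ∧ bin 20 = 60 := by
  have h0 := bin_zero
  have h1 := bin_one
  have h2 := bin_rec 0
  have h3 := bin_rec 1
  have h4 := bin_rec 2
  have h5 := bin_rec 3
  have h6 := bin_rec 4
  have h7 := bin_rec 5
  have h8 := bin_rec 6
  have h9 := bin_rec 7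
  have h10 := bin_rec 8
  have h11 := bin_rec 9
  have h12 := bin_rec 10
  have h13 := bin_rec 11
  have h14 := bin_rec 12
  have h15 := bin_rec 13
  have h16 := bin_rec 14
  have h17 := bin_rec 15
  have h18 := bin_rec 16
  have h19 := bin_rec 17
  have h20 := bin_rec 18
  norm_num at *
  omega

/-- `bin n` grows faster than `2 n` -/
theorem bin_large (n : ℕ) (hn : 19 ≤ n) : 2 * n + 2 < bin n ∧ 2 * n + 4 < bin (n + 1) := by
  induction n, hn using Nat.le_induction with
  | base =>
    have h := bin_small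
    constructor
    · omega
    · norm_num
      omega
  | succ n hn ih =>
    refine ⟨by omega, ?_⟩
    have h2 : ∀ m, 4 ≤ m → 4 ≤ bin m := by
      intro m hm
      induction m using Nat.strong_induction_on with
      | _ m ih2 =>
        by_cases h6 : m < 6
        · have h := bin_small
          interval_cases m <;> omega
        · obtain ⟨l, rfl⟩ : ∃ l, m = l + 2 := ⟨m - 2, by omega⟩
          rw [bin_rec]
          have := ih2 l (by omega) (by omega)
          omega
    have h3 := bin_rec n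
    have h4 := h2 ((n + 2) / 2) (by omega)
    have : n + 1 + 1 = n + 2 := rfl
    rw [this, h3]
    omega

/-! ### The solution -/

/-- the solution: `w(2 n + 1) = bin n`, `w(2 n) = 2 ⌈n / 2⌉` for `n ≥ 1`, `w(0) = 2` -/
noncomputable def w (n : ℕ) : ℕ :=
  if n % 2 = 1 then bin (n / 2) else if n = 0 then 2 else 2 * ((n / 2 + 1) / 2)

theorem w_odd (n : ℕ) : w (2 * n + 1) = bin n := by
  unfold w
  rw [if_pos (by omega)]
  congr 1
  omega

theorem w_even (n : ℕ) (hn : n ≠ 0) : w (2 * n) = 2 * ((n + 1) / 2) := by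
  unfold w
  rw [if_neg (by omega), if_neg (by omega)]
  congr 3
  omega

theorem w_pos (n : ℕ) : 0 < w n := by
  unfold w
  split_ifs with h1 h2
  · exact bin_pos _
  · omega
  · omega

theorem ext_nonneg (c : ℕ) (f : ℕ → ℕ) (m : ℤ) (k : ℕ) (h : m = k) : ext c f m = f k := by
  subst h
  simp [ext]

theorem ext_neg (c : ℕ) (f : ℕ → ℕ) (m : ℤ) (h : m < 0) : ext c f m = c := by
  simp [ext, h]

/-- **Binary partitions are a subsequence, along an arithmetic progression, of a solution of a nested recurrence.** -/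
theorem result : ∃ (u v : List ℕ) (c k : ℕ) (w : ℕ → ℕ) (a b : ℕ),
    (∀ i ∈ u, 0 < i) ∧ (∀ i ∈ v, 0 < i) ∧ IsSolution u v c k w ∧ 1 ≤ a ∧ ∀ n, w (a * n + b) = bin n := by
  refine ⟨[1], [4], 2, 40, w, 2, 1, by simp, by simp, ⟨w_pos, ?_⟩, by norm_num, w_odd⟩
  intro n hn
  simp only [List.map_cons, List.map_nil, List.sum_cons, List.sum_nil, add_zero]
  rcases Nat.even_or_odd' n with ⟨m, rfl | rfl⟩
  · -- even index: the nested index is negative
    have hb := (bin_large (m - 1) (by omega)).1
    have e1 : ext 2 w (((2 * m : ℕ) : ℤ) - ((1 : ℕ) : ℤ)) = bin (m - 1) := by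
      rw [ext_nonneg 2 w _ (2 * (m - 1) + 1) (by push_cast; omega), w_odd]
    have e2 : ext 2 w (((2 * m : ℕ) : ℤ) - (bin (m - 1) : ℤ)) = 2 := ext_neg 2 w _ (by push_cast; omega)
    have e3 : ext 2 w (((2 * m : ℕ) : ℤ) - ((4 : ℕ) : ℤ)) = 2 * ((m - 2 + 1) / 2) := by
      rw [ext_nonneg 2 w _ (2 * (m - 2)) (by push_cast; omega), w_even _ (by omega)]
    rw [e1, e2, e3, w_even _ (by omega)]
    omega
  · have e1 : ext 2 w (((2 * m + 1 : ℕ) : ℤ) - ((1 : ℕ) : ℤ)) = 2 * ((m + 1) / 2) := by
      rw [ext_nonneg 2 w _ (2 * m) (by push_cast; omega), w_even _ (by omega)]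
    have e2 : ext 2 w (((2 * m + 1 : ℕ) : ℤ) - ((2 * ((m + 1) / 2) : ℕ) : ℤ)) = bin (m / 2) := by
      rw [ext_nonneg 2 w _ (2 * (m / 2) + 1) (by push_cast; omega), w_odd]
    have e3 : ext 2 w (((2 * m + 1 : ℕ) : ℤ) - ((4 : ℕ) : ℤ)) = bin (m - 2) := by
      rw [ext_nonneg 2 w _ (2 * (m - 2) + 1) (by push_cast; omega), w_odd]
    rw [e1, e2, e3, w_odd]
    have h := bin_rec (m - 2)
    rw [show m - 2 + 2 = m by omega] at h
    rw [h]
    ring

end Pool.Agent.Results.MP_4e7634_nt.BinIsNested
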